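import Pool.Agent.K9h30.LP.Part

/-!
# Large prime powers dividing the numbers `N_m` (helper30)
-/

set_option autoImplicit false

open Finset

namespace Pool.Agent.K9h30.LP

open Pool.Agent.K9h50.PG

open scoped Classical in
/-- the product of the exact prime powers `p ^ v` of `n` with `p > Z` and `p ^ v > Y` -/
noncomputable def big (n : ℕ) (Y Z : ℝ) : ℕ :=
  ∏ p ∈ n.primeFactors.filter (fun p : ℕ => Z < (p : ℝ) ∧ Y < ((p ^ n.factorization p : ℕ) : ℝ)),
    p ^ n.factorization p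

lemma big_mul (n : ℕ) (hn : n ≠ 0) (Y Z : ℝ) : n = part n Y Z * big n Y Z := by
  classical
  have h1 : n = ∏ p ∈ n.primeFactors, p ^ n.factorization p := by
    conv_lhs => rw [← Nat.prod_factorization_pow_eq_self hn]
    rw [Finsupp.prod, Nat.support_factorization]
  unfold part big
  rw [← prod_filter_mul_prod_filter_not n.primeFactors
    (fun p : ℕ => (p : ℝ) ≤ Z ∨ ((p ^ n.factorization p : ℕ) : ℝ) ≤ Y)] at h1
  convert h1 using 3
  ext p
  simp only [not_or, not_le]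

lemma big_pos (n : ℕ) (Y Z : ℝ) : 0 < big n Y Z := by
  classical
  unfold big
  refine prod_pos fun p hp => ?_
  rw [mem_filter] at hp
  exact Nat.pow_pos (Nat.prime_of_mem_primeFactors hp.1).pos

lemma part_pos (n : ℕ) (Y Z : ℝ) : 0 < part n Y Z := by
  classical
  unfold part
  refine prod_pos fun p hp => ?_
  rw [mem_filter] at hp
  exact Nat.pow_pos (Nat.prime_of_mem_primeFactors hp.1).pos

lemma log_part_eq (m : ℕ) (Y Z : ℝ) :
    Real.log (part (N m) Y Z) = Real.log ((N m : ℝ) / big (N m) Y Z) := by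
  have h := big_mul (N m) (N_pos m).ne' Y Z
  have hb : (0 : ℝ) < big (N m) Y Z := by exact_mod_cast big_pos _ _ _
  congr 1
  rw [eq_div_iff hb.ne']
  have : ((part (N m) Y Z * big (N m) Y Z : ℕ) : ℝ) = (N m : ℝ) := by rw [← h]
  rw [← this]
  push_cast
  ring

lemma log4 : Real.log 4 ≤ 1.4 := by
  have h : Real.log 4 = 2 * Real.log 2 := by
    rw [show (4 : ℝ) = 2 ^ 2 by norm_num, Real.log_pow]; norm_num
  have := Real.log_two_lt_d9
  rw [h]
  linarith

lemma log_ge_one (X : ℝ) (hX : 3 ≤ X) : 1 ≤ Real.log X := by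
  rw [Real.le_log_iff_exp_le (by linarith)]
  have := Real.exp_one_lt_d9
  linarith

/-- the number of primes up to `δ X log X` -/
lemma pi_bound (δ X : ℝ) (hδ : 0 < δ) (hX : 3 ≤ X) (h : 170 ≤ δ * √X) :
    (Nat.primeCounting ⌊δ * X * Real.log X⌋₊ : ℝ) ≤ 7 * δ * X := by
  set s := √X with hs
  set l := Real.log X with hl
  have hX0 : 0 < X := by linarith
  have hss : s * s = X := Real.mul_self_sqrt hX0.le
  have hs1 : 1 ≤ s := by
    rw [hs, Real.one_le_sqrt]
    linarith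
  have hl1 : 1 ≤ l := log_ge_one X hX
  have hlog : Real.log s = l / 2 := by
    rw [hs, Real.log_sqrt hX0.le]
  have hls : l ≤ 2 * s := by
    have := Real.log_le_sub_one_of_pos (show 0 < s by linarith)
    linarith
  have hδX : δ * X = (δ * s) * s := by rw [← hss]; ring
  have hZs : s ≤ δ * X * l := by
    rw [hδX]
    nlinarith [mul_nonneg (show (0 : ℝ) ≤ s by linarith) (show (0 : ℝ) ≤ l - 1 by linarith)]
  have hZ1 : 1 < δ * X * l := by
    rw [hδX]
    nlinarith [mul_nonneg (show (0 : ℝ) ≤ s by linarith) (show (0 : ℝ) ≤ l - 1 by linarith)]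
  have h1 := Chebyshev.pi_le_log4_mul_div hZ1
  refine h1.trans ?_
  have hlogZ : l / 4 ≤ Real.log √(δ * X * l) := by
    rw [Real.log_sqrt (by linarith)]
    have := Real.log_le_log (by linarith) hZs
    linarith
  have h2 : √(δ * X * l) ≤ δ * X := by
    rw [Real.sqrt_le_left (by positivity)]
    have : l ≤ δ * X := by
      rw [hδX]
      nlinarith
    nlinarith [mul_pos hδ hX0]
  have h3 : Real.log 4 * (δ * X * l) / Real.log √(δ * X * l) ≤ 5.6 * δ * X := by
    rw [div_le_iff₀ (by linarith)]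
    have h4 := log4
    have h5 : 0 < δ * X := by positivity
    have h6 : 5.6 * δ * X * (l / 4) ≤ 5.6 * δ * X * Real.log √(δ * X * l) :=
      mul_le_mul_of_nonneg_left hlogZ (by positivity)
    have h7 : Real.log 4 * (δ * X * l) ≤ 1.4 * (δ * X * l) :=
      mul_le_mul_of_nonneg_right h4 (by positivity)
    linarith
  linarith [mul_pos hδ hX0]

/-- the total contribution of the small prime powers -/
lemma total (δ : ℝ) (X : ℕ) (hδ : 0 < δ) (hX : 3 ≤ X) (h : 170 ≤ δ * √(X : ℝ)) :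
    ∑ m ∈ Icc 1 X, Real.log (part (N m) (δ * X ^ 2) (δ * X * Real.log X)) ≤ 56 * δ * X ^ 2 := by
  have hX3 : (3 : ℝ) ≤ X := by exact_mod_cast hX
  have hX0 : (0 : ℝ) < X := by linarith
  have hl1 := log_ge_one X hX3
  have h1 := main_sum X (δ * X ^ 2) (δ * X * Real.log X) (by positivity) (by positivity)
  have h2 := pi_bound δ X hδ hX3 h
  have h3 : (X : ℝ) ^ (3 / 2 : ℝ) = X * √(X : ℝ) := by
    rw [show (3 / 2 : ℝ) = 1 + 1 / 2 by norm_num, Real.rpow_add hX0, Real.rpow_one,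
      Real.sqrt_eq_rpow]
  rw [h3] at h1
  have hss : √(X : ℝ) * √(X : ℝ) = X := Real.mul_self_sqrt hX0.le
  have h4 : 7 * (X : ℝ) * Nat.primeCounting ⌊δ * X * Real.log X⌋₊ ≤ 7 * X * (7 * δ * X) :=
    mul_le_mul_of_nonneg_left h2 (by positivity)
  have h5 : 170 * ((X : ℝ) * √(X : ℝ)) ≤ δ * X ^ 2 := by
    have h6 : δ * (X : ℝ) ^ 2 = (δ * √(X : ℝ)) * (X * √(X : ℝ)) := by
      calc δ * (X : ℝ) ^ 2 = δ * X * (√(X : ℝ) * √(X : ℝ)) := by rw [hss]; ring
        _ = _ := by ring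
    rw [h6]
    exact mul_le_mul_of_nonneg_right h (by positivity)
  nlinarith

/-- the number of exceptions -/
theorem exceptions (ε : ℝ) (hε : 0 < ε) : ∃ δ : ℝ, 0 < δ ∧ ∃ X₀ : ℕ, ∀ X : ℕ, X₀ ≤ X →
    ({m ∈ Icc 1 X | (big (N m) (δ * X ^ 2) (δ * X * Real.log X) : ℝ) <
      (N m : ℝ) ^ (1 - ε)}.card : ℝ) ≤ ε * X := by
  classical
  refine ⟨ε ^ 3 / 80, by positivity, ⌈(170 / (ε ^ 3 / 80)) ^ 2⌉₊ + 3, fun X hX => ?_⟩
  set δ := ε ^ 3 / 80 with hδ
  have hδ0 : 0 < δ := by positivity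
  have hX3 : 3 ≤ X := by omega
  have hX3' : (3 : ℝ) ≤ X := by exact_mod_cast hX3
  have hX0 : (0 : ℝ) < X := by linarith
  have h170 : 170 ≤ δ * √(X : ℝ) := by
    have h1 : (170 / δ) ^ 2 ≤ X := by
      have h2 := Nat.le_ceil ((170 / δ) ^ 2)
      have h3 : ((⌈(170 / δ) ^ 2⌉₊ : ℕ) : ℝ) ≤ X := by exact_mod_cast (by omega)
      linarith
    have h2 := Real.le_sqrt_of_sq_le h1
    rw [div_le_iff₀ hδ0] at h2
    linarith
  have htot := total δ X hδ0 hX3 h170
  set S := {m ∈ Icc 1 X | (big (N m) (δ * X ^ 2) (δ * X * Real.log X) : ℝ) <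
      (N m : ℝ) ^ (1 - ε)} with hS
  have hsplit : S.card = (S.filter (fun m : ℕ => (m : ℝ) ≤ ε / 2 * X)).card +
      (S.filter (fun m : ℕ => ¬ (m : ℝ) ≤ ε / 2 * X)).card :=
    (card_filter_add_card_filter_not _).symm
  have hA : ((S.filter (fun m : ℕ => (m : ℝ) ≤ ε / 2 * X)).card : ℝ) ≤ ε / 2 * X := by
    have h1 : S.filter (fun m : ℕ => (m : ℝ) ≤ ε / 2 * X) ⊆ Icc 1 ⌊ε / 2 * X⌋₊ := by
      intro m hm
      rw [mem_filter, hS, mem_filter, mem_Icc] at hm
      rw [mem_Icc]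
      exact ⟨hm.1.1.1, Nat.le_floor hm.2⟩
    have h2 := card_le_card h1
    rw [Nat.card_Icc, Nat.add_sub_cancel] at h2
    have h3 : ((⌊ε / 2 * X⌋₊ : ℕ) : ℝ) ≤ ε / 2 * X := Nat.floor_le (by positivity)
    exact (Nat.cast_le.mpr h2).trans h3
  have hB : ((S.filter (fun m : ℕ => ¬ (m : ℝ) ≤ ε / 2 * X)).card : ℝ) * (3 / 2 * ε ^ 2 * X) ≤
      56 * δ * X ^ 2 := by
    refine le_trans ?_ htot
    have h1 : ∑ m ∈ S.filter (fun m : ℕ => ¬ (m : ℝ) ≤ ε / 2 * X),
        Real.log (part (N m) (δ * X ^ 2) (δ * X * Real.log X)) ≤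
        ∑ m ∈ Icc 1 X, Real.log (part (N m) (δ * X ^ 2) (δ * X * Real.log X)) := by
      apply sum_le_sum_of_subset_of_nonneg
      · exact (filter_subset _ _).trans (filter_subset _ _)
      · intro m _ _
        exact Real.log_natCast_nonneg _
    refine le_trans ?_ h1
    rw [← nsmul_eq_mul]
    apply card_nsmul_le_sum
    intro m hm
    rw [mem_filter, hS, mem_filter, not_le] at hm
    obtain ⟨⟨_, hm1⟩, hm2⟩ := hm
    have hb : (0 : ℝ) < big (N m) (δ * X ^ 2) (δ * X * Real.log X) := by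
      exact_mod_cast big_pos _ _ _
    have hN : (0 : ℝ) < N m := by exact_mod_cast N_pos m
    have h2 := Real.log_lt_log hb hm1
    rw [Real.log_rpow hN] at h2
    rw [log_part_eq, Real.log_div hN.ne' hb.ne']
    have h3 := logN3 m
    have h4 : 3 * (ε / 2 * X) ≤ Real.log (N m) := by linarith
    have h5 : ε * (3 * (ε / 2 * X)) ≤ ε * Real.log (N m) := mul_le_mul_of_nonneg_left h4 hε.le
    nlinarith
  have hC : ((S.filter (fun m : ℕ => ¬ (m : ℝ) ≤ ε / 2 * X)).card : ℝ) ≤ ε / 2 * X := by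
    have h1 : (0 : ℝ) < 3 / 2 * ε ^ 2 * X := by positivity
    have h2 : 56 * δ * X ^ 2 ≤ ε / 2 * X * (3 / 2 * ε ^ 2 * X) := by
      rw [hδ]
      have : (0 : ℝ) < ε ^ 3 * X ^ 2 := by positivity
      nlinarith
    exact le_of_mul_le_mul_right (hB.trans h2) h1
  rw [hsplit]
  push_cast
  linarith

/-- if the part is large there is a suitable prime -/
lemma exists_of_big (n : ℕ) (Y Z : ℝ) (h : 1 < big n Y Z) :
    ∃ p : ℕ, p.Prime ∧ p ∣ n ∧ Z < p ∧ Y < ((p ^ n.factorization p : ℕ) : ℝ) := by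
  classical
  by_contra hcon
  push Not at hcon
  have : big n Y Z = 1 := by
    unfold big
    apply prod_eq_one
    intro p hp
    exfalso
    rw [mem_filter] at hp
    have := hcon p (Nat.prime_of_mem_primeFactors hp.1) (Nat.dvd_of_mem_primeFactors hp.1) hp.2.1
    linarith [hp.2.2]
  omega

/-- density one -/
theorem density (f : ℕ → ℝ) (hf : Filter.Tendsto f Filter.atTop (nhds 0)) :
    Filter.Tendsto (fun X : ℕ => (Set.ncard {m : ℕ | 1 ≤ m ∧ m ≤ X ∧ ¬ ∃ p : ℕ, p.Prime ∧ p ∣ N m ∧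
      f m * m * Real.log m < p ∧ f m * m ^ 2 < ((p ^ (N m).factorization p : ℕ) : ℝ)} : ℝ) / X)
      Filter.atTop (nhds 0) := by
  classical
  rw [Metric.tendsto_atTop]
  intro η hη
  set ε := min (η / 4) 1 / 2 with hε
  have hε0 : 0 < ε := by positivity
  have hε1 : ε ≤ 1 / 2 := by
    have : min (η / 4) 1 ≤ 1 := min_le_right _ _
    linarith
  have hεη : ε ≤ η / 8 := by
    have : min (η / 4) 1 ≤ η / 4 := min_le_left _ _
    linarith
  obtain ⟨δ, hδ, X₀, hmain⟩ := exceptions ε hε0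
  have hf2 := (hf.eventually (gt_mem_nhds hδ)).exists_forall_of_atTop
  obtain ⟨M, hM⟩ := hf2
  refine ⟨X₀ + ⌈((M : ℝ) + 1) / ε⌉₊ + 1, fun X hX => ?_⟩
  have hX0 : (0 : ℝ) < X := by exact_mod_cast (by omega : 0 < X)
  have hMX : (M : ℝ) + 1 ≤ ε * X := by
    have h1 := Nat.le_ceil (((M : ℝ) + 1) / ε)
    have h2 : ((⌈((M : ℝ) + 1) / ε⌉₊ : ℕ) : ℝ) ≤ X := Nat.cast_le.mpr (by omega)
    have h3 : ((M : ℝ) + 1) / ε ≤ X := h1.trans h2
    rw [div_le_iff₀ hε0] at h3
    linarith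
  have hex := hmain X (by omega)
  set S := {m ∈ Icc 1 X | (big (N m) (δ * X ^ 2) (δ * X * Real.log X) : ℝ) <
      (N m : ℝ) ^ (1 - ε)} with hS
  set B := {m : ℕ | 1 ≤ m ∧ m ≤ X ∧ ¬ ∃ p : ℕ, p.Prime ∧ p ∣ N m ∧
      f m * m * Real.log m < p ∧ f m * m ^ 2 < ((p ^ (N m).factorization p : ℕ) : ℝ)} with hB
  have hsub : B ⊆ ((S ∪ range M : Finset ℕ) : Set ℕ) := by
    rintro m ⟨h1, h2, h3⟩
    rw [mem_coe, mem_union, mem_range]
    by_contra hcon
    push Not at hcon
    obtain ⟨hc1, hc2⟩ := hcon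
    apply h3
    rw [hS, mem_filter, mem_Icc] at hc1
    push Not at hc1
    have h4 := hc1 ⟨h1, h2⟩
    have hN1 : (1 : ℝ) < N m := by
      have h5 := logN3 m
      have h6 : (1 : ℝ) ≤ m := by exact_mod_cast h1
      by_contra hle
      push Not at hle
      have : Real.log (N m) ≤ 0 := Real.log_nonpos (Nat.cast_nonneg _) hle
      linarith
    have h5 : (1 : ℝ) < (N m : ℝ) ^ (1 - ε) := Real.one_lt_rpow hN1 (by linarith)
    have h6 : 1 < big (N m) (δ * X ^ 2) (δ * X * Real.log X) := by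
      exact_mod_cast h5.trans_le h4
    obtain ⟨p, hp, hpN, hp1, hp2⟩ := exists_of_big _ _ _ h6
    have hfm : f m < δ := hM m hc2
    have hm1 : (1 : ℝ) ≤ m := by exact_mod_cast h1
    have hmX : (m : ℝ) ≤ X := by exact_mod_cast h2
    have hlm : 0 ≤ Real.log m := Real.log_nonneg hm1
    have hlX : Real.log m ≤ Real.log X := Real.log_le_log (by linarith) hmX
    refine ⟨p, hp, hpN, ?_, ?_⟩
    · refine lt_of_le_of_lt ?_ hp1
      calc f m * m * Real.log m = f m * (m * Real.log m) := by ring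
        _ ≤ δ * (m * Real.log m) := mul_le_mul_of_nonneg_right hfm.le (by positivity)
        _ ≤ δ * (X * Real.log X) := by
            apply mul_le_mul_of_nonneg_left _ hδ.le
            exact mul_le_mul hmX hlX hlm hX0.le
        _ = δ * X * Real.log X := by ring
    · refine lt_of_le_of_lt ?_ hp2
      calc f m * (m : ℝ) ^ 2 ≤ δ * (m : ℝ) ^ 2 := mul_le_mul_of_nonneg_right hfm.le (by positivity)
        _ ≤ δ * (X : ℝ) ^ 2 := by
            apply mul_le_mul_of_nonneg_left _ hδ.le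
            exact pow_le_pow_left₀ (by linarith) hmX 2
  have hcard : (B.ncard : ℝ) ≤ ε * X + M := by
    have h1 := Set.ncard_le_ncard hsub (finite_toSet _)
    rw [Set.ncard_coe_finset] at h1
    have h2 := card_union_le S (range M)
    rw [card_range] at h2
    have h3 : (B.ncard : ℝ) ≤ ((S.card + M : ℕ) : ℝ) := by exact_mod_cast h1.trans h2
    push_cast at h3
    linarith
  rw [Real.dist_eq, sub_zero, abs_of_nonneg (by positivity), div_lt_iff₀ hX0]
  have : ε * X ≤ η / 8 * X := mul_le_mul_of_nonneg_right hεη hX0.le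
  nlinarith

end Pool.Agent.K9h30.LP
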