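import Pool.Agent.K9h50.PG.Fin

/-!
# The part of a number made of small prime powers, and sums over the terms `N_m` (helper30)
-/

set_option autoImplicit false

open Finset

namespace Pool.Agent.K9h30.LP

open Pool.Agent.K9h50.PG

open scoped Classical in
/-- the product of the exact prime powers `p ^ v` of `n` with `p ≤ Z` or `p ^ v ≤ Y` -/
noncomputable def part (n : ℕ) (Y Z : ℝ) : ℕ :=
  ∏ p ∈ n.primeFactors.filter (fun p : ℕ => (p : ℝ) ≤ Z ∨ ((p ^ n.factorization p : ℕ) : ℝ) ≤ Y),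
    p ^ n.factorization p

open scoped Classical in
/-- the contribution of one prime -/
noncomputable def g (Y Z : ℝ) (p v : ℕ) : ℝ :=
  if (p : ℝ) ≤ Z ∨ ((p ^ v : ℕ) : ℝ) ≤ Y then v * Real.log p else 0

lemma g_nonneg (Y Z : ℝ) (p v : ℕ) : 0 ≤ g Y Z p v := by
  unfold g
  split_ifs
  · exact mul_nonneg (Nat.cast_nonneg _) (Real.log_natCast_nonneg _)
  · exact le_rfl

lemma g_le (Y Z : ℝ) (p v : ℕ) : g Y Z p v ≤ v * Real.log p := by
  unfold g
  split_ifs
  · exact le_rfl
  · exact mul_nonneg (Nat.cast_nonneg _) (Real.log_natCast_nonneg _)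

lemma g_zero (Y Z : ℝ) (p : ℕ) : g Y Z p 0 = 0 := by
  unfold g
  simp

lemma log_part (n : ℕ) (Y Z : ℝ) (P : Finset ℕ) (hP : n.primeFactors ⊆ P) :
    Real.log (part n Y Z) = ∑ p ∈ P, g Y Z p (n.factorization p) := by
  classical
  unfold part
  push_cast
  rw [Real.log_prod]
  · have h1 : ∑ p ∈ P, g Y Z p (n.factorization p) =
        ∑ p ∈ n.primeFactors, g Y Z p (n.factorization p) := by
      symm
      apply sum_subset hP
      intro p _ hp
      have : n.factorization p = 0 := by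
        rw [← Finsupp.notMem_support_iff, Nat.support_factorization]
        exact hp
      rw [this, g_zero]
    rw [h1, sum_filter]
    refine sum_congr rfl fun p hp => ?_
    unfold g
    push_cast
    split_ifs
    · rw [Real.log_pow]
    · rfl
  · intro p hp
    rw [mem_filter] at hp
    have := (Nat.prime_of_mem_primeFactors hp.1).pos
    positivity

lemma log_eq (n : ℕ) (hn : n ≠ 0) (P : Finset ℕ) (hP : n.primeFactors ⊆ P) :
    Real.log n = ∑ p ∈ P, (n.factorization p : ℝ) * Real.log p := by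
  have h1 : ∑ p ∈ P, (n.factorization p : ℝ) * Real.log p =
      ∑ p ∈ n.primeFactors, (n.factorization p : ℝ) * Real.log p := by
    symm
    apply sum_subset hP
    intro p _ hp
    have : n.factorization p = 0 := by
      rw [← Finsupp.notMem_support_iff, Nat.support_factorization]
      exact hp
    rw [this]
    simp
  rw [h1]
  have h2 : (n : ℝ) = ∏ p ∈ n.primeFactors, (p : ℝ) ^ n.factorization p := by
    conv_lhs => rw [← Nat.prod_factorization_pow_eq_self hn]
    rw [Finsupp.prod, Nat.support_factorization]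
    push_cast
    rfl
  conv_lhs => rw [h2]
  rw [Real.log_prod]
  · refine sum_congr rfl fun p _ => ?_
    rw [Real.log_pow]
  · intro p hp
    have := (Nat.prime_of_mem_primeFactors hp).pos
    positivity

/-- the maximal exponent is attained -/
lemma attained (X p : ℕ) (hp : p ∈ (L X).primeFactors) :
    ∃ m ∈ Icc 1 X, (N m).factorization p = (L X).factorization p := by
  have hpp := Nat.prime_of_mem_primeFactors hp
  have hL0 := (L_pos X).ne'
  have hk : 0 < (L X).factorization p := hpp.factorization_pos_of_dvd hL0 (Nat.dvd_of_mem_primeFactors hp)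
  have h1 : p ^ (L X).factorization p ∣ L X := Nat.ordProj_dvd _ _
  obtain ⟨m, hm, hm'⟩ := pow_dvd_lcm hpp hk (Icc 1 X) h1
  refine ⟨m, hm, le_antisymm ?_ ?_⟩
  · have h2 : N m ∣ L X := dvd_lcm hm
    exact (Nat.factorization_le_iff_dvd (N_pos m).ne' hL0).mpr h2 p
  · exact (hpp.pow_dvd_iff_le_factorization (N_pos m).ne').mp hm'

/-- the sum over the terms -/
lemma sum_part (X : ℕ) (Y Z : ℝ) : ∑ m ∈ Icc 1 X, Real.log (part (N m) Y Z) ≤
    Real.log (part (L X) Y Z) + 170 * (X : ℝ) ^ (3 / 2 : ℝ) := by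
  classical
  have h0 := sum_log X
  have hL0 := (L_pos X).ne'
  have hsub : ∀ m ∈ Icc 1 X, (N m).primeFactors ⊆ (L X).primeFactors := fun m hm =>
    Nat.primeFactors_mono (dvd_lcm hm) hL0
  have e1 : ∑ m ∈ Icc 1 X, Real.log (part (N m) Y Z) =
      ∑ p ∈ (L X).primeFactors, ∑ m ∈ Icc 1 X, g Y Z p ((N m).factorization p) := by
    rw [sum_comm]
    exact sum_congr rfl fun m hm => log_part _ _ _ _ (hsub m hm)
  have e2 : ∑ m ∈ Icc 1 X, Real.log (N m) =
      ∑ p ∈ (L X).primeFactors, ∑ m ∈ Icc 1 X, ((N m).factorization p : ℝ) * Real.log p := by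
    rw [sum_comm]
    exact sum_congr rfl fun m hm => log_eq _ (N_pos m).ne' _ (hsub m hm)
  have e3 := log_part (L X) Y Z _ subset_rfl
  have e4 := log_eq (L X) hL0 _ subset_rfl
  have h1 : ∀ p ∈ (L X).primeFactors, ∑ m ∈ Icc 1 X, g Y Z p ((N m).factorization p) ≤
      ∑ m ∈ Icc 1 X, ((N m).factorization p : ℝ) * Real.log p -
        ((L X).factorization p : ℝ) * Real.log p + g Y Z p ((L X).factorization p) := by
    intro p hp
    obtain ⟨m₀, hm₀, he⟩ := attained X p hp
    rw [← add_sum_erase _ _ hm₀, ← add_sum_erase _ (fun m => ((N m).factorization p : ℝ) * Real.log p) hm₀,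
      he]
    have := sum_le_sum (s := (Icc 1 X).erase m₀) fun m _ => g_le Y Z p ((N m).factorization p)
    linarith
  have h2 := sum_le_sum h1
  rw [sum_add_distrib, sum_sub_distrib, ← e1, ← e2, ← e3, ← e4] at h2
  linarith

/-- the part of the least common multiple -/
lemma part_L (X : ℕ) (Y Z : ℝ) (hY : 0 ≤ Y) (hZ : 0 ≤ Z) :
    Real.log (part (L X) Y Z) ≤ 7 * X * Nat.primeCounting ⌊Z⌋₊ + 6 * Y := by
  classical
  have hL0 := (L_pos X).ne'
  rw [log_part (L X) Y Z _ subset_rfl]
  set P := (L X).primeFactors with hP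
  have h1 : ∑ p ∈ P, g Y Z p ((L X).factorization p) ≤
      ∑ p ∈ P.filter (fun p : ℕ => (p : ℝ) ≤ Z), ((L X).factorization p : ℝ) * Real.log p +
      ∑ p ∈ P.filter (fun p : ℕ => ((p ^ (L X).factorization p : ℕ) : ℝ) ≤ Y),
        ((L X).factorization p : ℝ) * Real.log p := by
    rw [sum_filter, sum_filter, ← sum_add_distrib]
    refine sum_le_sum fun p _ => ?_
    have h0 : 0 ≤ ((L X).factorization p : ℝ) * Real.log p :=
      mul_nonneg (Nat.cast_nonneg _) (Real.log_natCast_nonneg _)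
    unfold g
    by_cases ha : (p : ℝ) ≤ Z <;> by_cases hb : ((p ^ (L X).factorization p : ℕ) : ℝ) ≤ Y <;>
      simp only [ha, hb, if_true, if_false, or_self, or_true, true_or] <;> linarith
  refine h1.trans (add_le_add ?_ ?_)
  · have h2 : ∀ p ∈ P.filter (fun p : ℕ => (p : ℝ) ≤ Z), ((L X).factorization p : ℝ) * Real.log p ≤ 7 * X := by
      intro p hp
      rw [mem_filter] at hp
      have hpp := Nat.prime_of_mem_primeFactors hp.1
      obtain ⟨m, hm, he⟩ := attained X p hp.1
      rw [mem_Icc] at hm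
      have h3 : ((L X).factorization p : ℝ) * Real.log p = Real.log ((p ^ (N m).factorization p : ℕ) : ℝ) := by
        rw [← he]
        push_cast
        rw [Real.log_pow]
      rw [h3]
      have h4 : ((p ^ (N m).factorization p : ℕ) : ℝ) ≤ (N m : ℝ) := by
        exact_mod_cast Nat.le_of_dvd (N_pos m) (Nat.ordProj_dvd _ _)
      have h5 : (0 : ℝ) < ((p ^ (N m).factorization p : ℕ) : ℝ) := by
        exact_mod_cast Nat.pow_pos hpp.pos
      refine (Real.log_le_log h5 h4).trans ((logN m).2.trans ?_)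
      have h6 := log_alpha.2
      have h7 : (m : ℝ) ≤ X := by exact_mod_cast hm.2
      have h8 : (1 : ℝ) ≤ X := by exact_mod_cast hm.1.trans hm.2
      have h9 : (0 : ℝ) ≤ m := Nat.cast_nonneg _
      nlinarith
    refine (sum_le_card_nsmul _ _ _ h2).trans ?_
    rw [nsmul_eq_mul, mul_comm]
    apply mul_le_mul_of_nonneg_left _ (by positivity)
    have h3 : P.filter (fun p : ℕ => (p : ℝ) ≤ Z) ⊆ (range (⌊Z⌋₊ + 1)).filter Nat.Prime := by
      intro p hp
      rw [mem_filter] at hp
      rw [mem_filter, mem_range, Nat.lt_succ_iff]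
      exact ⟨Nat.le_floor hp.2, Nat.prime_of_mem_primeFactors hp.1⟩
    have h4 : ((range (⌊Z⌋₊ + 1)).filter Nat.Prime).card = Nat.primeCounting ⌊Z⌋₊ := by
      rw [Nat.primeCounting, Nat.primeCounting', Nat.count_eq_card_filter_range]
    rw [← h4]
    exact_mod_cast card_le_card h3
  · have h2 : ∑ p ∈ P.filter (fun p : ℕ => ((p ^ (L X).factorization p : ℕ) : ℝ) ≤ Y),
        ((L X).factorization p : ℝ) * Real.log p ≤ Chebyshev.psi (⌊Y⌋₊ : ℕ) := by
      rw [Chebyshev.psi_eq_sum_mul_log_prime]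
      have h3 : P.filter (fun p : ℕ => ((p ^ (L X).factorization p : ℕ) : ℝ) ≤ Y) ⊆ Nat.primesLE ⌊Y⌋₊ := by
        intro p hp
        rw [mem_filter] at hp
        have hpp := Nat.prime_of_mem_primeFactors hp.1
        have hk : 0 < (L X).factorization p :=
          hpp.factorization_pos_of_dvd hL0 (Nat.dvd_of_mem_primeFactors hp.1)
        have h4 : p ≤ ⌊Y⌋₊ := (Nat.le_self_pow hk.ne' p).trans (Nat.le_floor hp.2)
        rw [Nat.mem_primesLE]
        exact ⟨h4, hpp⟩
      calc ∑ p ∈ P.filter (fun p : ℕ => ((p ^ (L X).factorization p : ℕ) : ℝ) ≤ Y),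
            ((L X).factorization p : ℝ) * Real.log p
          ≤ ∑ p ∈ P.filter (fun p : ℕ => ((p ^ (L X).factorization p : ℕ) : ℝ) ≤ Y),
            (Nat.log p ⌊Y⌋₊ : ℝ) * Real.log p := by
            refine sum_le_sum fun p hp => ?_
            rw [mem_filter] at hp
            have hpp := Nat.prime_of_mem_primeFactors hp.1
            apply mul_le_mul_of_nonneg_right _ (Real.log_natCast_nonneg _)
            exact_mod_cast Nat.le_log_of_pow_le hpp.one_lt (Nat.le_floor hp.2)
        _ ≤ _ := sum_le_sum_of_subset_of_nonneg h3 fun p _ _ =>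
            mul_nonneg (Nat.cast_nonneg _) (Real.log_natCast_nonneg _)
    have h3 := Chebyshev.psi_le_const_mul_self (x := ((⌊Y⌋₊ : ℕ) : ℝ)) (by positivity)
    have h4 : ((⌊Y⌋₊ : ℕ) : ℝ) ≤ Y := Nat.floor_le hY
    have h5 : Real.log 4 ≤ 2 := by
      rw [Real.log_le_iff_le_exp (by norm_num)]
      have e3 : Real.exp 2 = Real.exp 1 ^ 2 := by rw [← Real.exp_nat_mul]; norm_num
      rw [e3]
      have h2 := Real.exp_one_gt_d9
      have : (2.7 : ℝ) ^ 2 ≤ Real.exp 1 ^ 2 := pow_le_pow_left₀ (by norm_num) (by linarith) 2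
      nlinarith
    have h6 : (0 : ℝ) ≤ ((⌊Y⌋₊ : ℕ) : ℝ) := Nat.cast_nonneg _
    nlinarith

/-- **The sum inequality.** -/
theorem main_sum (X : ℕ) (Y Z : ℝ) (hY : 0 ≤ Y) (hZ : 0 ≤ Z) :
    ∑ m ∈ Icc 1 X, Real.log (part (N m) Y Z) ≤
      7 * X * Nat.primeCounting ⌊Z⌋₊ + 6 * Y + 170 * (X : ℝ) ^ (3 / 2 : ℝ) := by
  have h1 := sum_part X Y Z
  have h2 := part_L X Y Z hY hZ
  linarith

end Pool.Agent.K9h30.LP
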